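import Pool.Agent.J4H87.K5.Stm

set_option autoImplicit false

/-! Project K5 (helper87): the job CL. -/

namespace Pool.Agent.J4H15.K5

open Finset Filter Topology Pool.Agent.J4H87.K5
open scoped Classical

theorem card_ge (M t : ℕ) (_ : t ≤ M) :
    ((univ : Finset (Fin M)).filter (fun s => t ≤ s.1)).card = M - t := by
  have h1 : ((univ : Finset (Fin M)).filter (fun s => t ≤ s.1)).card =
      ((Finset.Ico t M)).card := by
    apply Finset.card_bij (fun s _ => s.1)
    · intro s hs
      rw [mem_filter] at hs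
      rw [mem_Ico]
      exact ⟨hs.2, s.2⟩
    · intro a _ b _ h
      exact Fin.ext h
    · intro b hb
      rw [mem_Ico] at hb
      exact ⟨⟨b, hb.2⟩, by rw [mem_filter]; exact ⟨mem_univ _, hb.1⟩, rfl⟩
  rw [h1, Nat.card_Ico]

/-- one step: the value at the time `a` is fixed -/
theorem step {n : ℕ} {r t : ℕ} (ht : t ≤ n.choose 2) (P : Om n → Prop) (a : Fin (n.choose 2))
    (ha : r ≤ a.1 ∧ a.1 < t) (S : Finset (Fin (n.choose 2))) (hS : ∀ s ∈ S, s ≠ a ∧ s.1 < t)
    (hP : ∀ ω ω' : Om n, (∀ j : Fin (n.choose 2), (j.1 < r ∨ j ∈ S) → ω j = ω' j) → (P ω → P ω'))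
    (c : Sym2 (Fin n)) :
    pr (fun ω => P ω ∧ off ω a = c) * ((n.choose 2 : ℝ) - t) ≤ pr P := by
  have key : (univ.filter (fun ω : Om n => P ω ∧ off ω a = c)).card * (n.choose 2 - t) ≤
      (univ.filter P).card := by
    rw [← card_ge (n.choose 2) t ht, ← card_product]
    apply Finset.card_le_card_of_injOn
      (fun y : Om n × Fin (n.choose 2) => (Equiv.swap a y.2).trans y.1)
    · intro y hy
      rw [mem_coe, mem_product, mem_filter, mem_filter] at hy
      obtain ⟨⟨-, hPy, hoff⟩, -, hty⟩ := hy
      rw [mem_coe, mem_filter]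
      refine ⟨mem_univ _, hP y.1 _ ?_ hPy⟩
      intro j hj
      have h1 : j ≠ a := by
        rintro rfl
        rcases hj with hj | hj
        · omega
        · exact (hS _ hj).1 rfl
      have h2 : j ≠ y.2 := by
        rintro rfl
        rcases hj with hj | hj
        · omega
        · have := (hS _ hj).2; omega
      simp [Equiv.swap_apply_of_ne_of_ne h1 h2]
    · intro y hy z hz h
      rw [mem_coe, mem_product, mem_filter, mem_filter] at hy hz
      simp only at h
      have e1 : ∀ w : Om n × Fin (n.choose 2), ((Equiv.swap a w.2).trans w.1) w.2 = w.1 a := by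
        intro w; simp
      have h3 : y.2 = z.2 := by
        apply ((Equiv.swap a y.2).trans y.1).injective
        rw [e1]
        conv_rhs => rw [h]
        rw [e1]
        apply Subtype.ext
        have hy' : off y.1 a = c := hy.1.2.2
        have hz' : off z.1 a = c := hz.1.2.2
        unfold off at hy' hz'
        rw [hy', hz']
      have h4 : y.1 = z.1 := by
        ext j
        have := congrArg (fun f : Om n => f ((Equiv.swap a y.2) j)) h
        simp only [Equiv.trans_apply, h3, Equiv.swap_apply_self] at this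
        rw [this]
      exact Prod.ext h4 h3
  have keyR : ((univ.filter (fun ω : Om n => P ω ∧ off ω a = c)).card : ℝ) *
      ((n.choose 2 : ℝ) - t) ≤ ((univ.filter P).card : ℝ) := by
    have : (((n.choose 2 - t : ℕ)) : ℝ) = (n.choose 2 : ℝ) - t := by
      rw [Nat.cast_sub ht]
    rw [← this]
    exact_mod_cast key
  unfold pr
  rw [div_mul_eq_mul_div]
  apply div_le_div_of_nonneg_right _ (Nat.cast_nonneg _)
  refine (le_of_eq ?_).trans (keyR.trans (le_of_eq ?_))
  · congr!
  · congr!

theorem t_CL : S_CL := by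
  intro n r t m
  induction m with
  | zero =>
    intro Q _ _ s _ _ c
    simp
  | succ m ih =>
    intro Q hQ ht s hs hst c
    have ih' := ih Q hQ ht (fun i => s i.succ) (fun a b h => Fin.succ_injective _ (hs h))
      (fun i => hst i.succ) (fun i => c i.succ)
    have hMt : (0 : ℝ) ≤ (n.choose 2 : ℝ) - t := by
      have : (t : ℝ) ≤ (n.choose 2 : ℝ) := by exact_mod_cast ht
      linarith
    have hstep := step (r := r) ht (fun ω => Q ω ∧ ∀ i : Fin m, off ω (s i.succ) = c i.succ) (s 0)
      (hst 0) (univ.image (fun i : Fin m => s i.succ)) (by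
        intro x hx
        rw [mem_image] at hx
        obtain ⟨i, -, rfl⟩ := hx
        refine ⟨fun h => ?_, (hst i.succ).2⟩
        have := hs h
        exact Fin.succ_ne_zero i this) (by
        rintro ω ω' h ⟨h1, h2⟩
        refine ⟨(hQ ω ω' (fun j hj => h j (Or.inl hj))).1 h1, fun i => ?_⟩
        rw [← h2 i]
        unfold off
        rw [h (s i.succ) (Or.inr (mem_image_of_mem _ (mem_univ i)))]) (c 0)
    have e : (fun ω : Om n => Q ω ∧ ∀ i : Fin (m + 1), off ω (s i) = c i) =
        (fun ω => (Q ω ∧ ∀ i : Fin m, off ω (s i.succ) = c i.succ) ∧ off ω (s 0) = c 0) := by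
      funext ω
      rw [Fin.forall_fin_succ]
      apply propext
      tauto
    rw [e, pow_succ', ← mul_assoc]
    calc _ ≤ pr (fun ω : Om n => Q ω ∧ ∀ i : Fin m, off ω (s i.succ) = c i.succ) *
        ((n.choose 2 : ℝ) - t) ^ m := mul_le_mul_of_nonneg_right hstep (pow_nonneg hMt m)
      _ ≤ pr Q := ih'

end Pool.Agent.J4H15.K5
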