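import Pool.Agent.J4H87.K5.Stm

set_option autoImplicit false

/-! Project K5 (helper87): the job RED. -/

namespace Pool.Agent.J4H15.K5

open Finset Filter Topology Pool.Agent.J4H87.K5
open scoped Classical

theorem t_RED : S_RED := by
  constructor
  · intro n t A ω h
    obtain ⟨x, hx, hxs⟩ := h
    have hmem : ∀ p : Sym2 (Fin 5), ¬ p.IsDiag → ∃ j : Fin (n.choose 2),
        j.1 < t ∧ off ω j = p.map x ∧ A (hist ω (j.1 + 1)) := by
      intro p
      induction p with
      | _ a b =>
        intro hp
        rw [Sym2.mk_isDiag_iff] at hp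
        have h1 := hxs a b hp
        unfold bt at h1
        rw [mem_image] at h1
        obtain ⟨j, hj, hj2⟩ := h1
        rw [mem_filter] at hj
        exact ⟨j, hj.2.1, by rw [hj2, Sym2.map_mk], hj.2.2⟩
    obtain ⟨j0, -⟩ := hmem s(0, 1) (by decide)
    refine ⟨x, fun p => if hp : ¬ p.IsDiag then (hmem p hp).choose else j0, hx, fun p hp => ?_⟩
    simp only [dif_pos hp]
    exact (hmem p hp).choose_spec
  · intro n t A ω x τ h
    obtain ⟨hx, h⟩ := h
    refine ⟨fun p q hp hq hpq => ?_, fun σ => ⟨hx.comp σ.injective, fun p hp => ?_⟩⟩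
    · apply Sym2.map.injective hx
      rw [← (h p hp).2.1, ← (h q hq).2.1, hpq]
    · have hp' : ¬ (p.map σ).IsDiag := by
        intro h1
        apply hp
        revert h1
        induction p with
        | _ a b =>
          rw [Sym2.map_mk, Sym2.mk_isDiag_iff, Sym2.mk_isDiag_iff]
          intro h1
          exact σ.injective h1
      obtain ⟨h1, h2, h3⟩ := h (p.map σ) hp'
      refine ⟨h1, ?_, h3⟩
      rw [h2, Sym2.map_map]

end Pool.Agent.J4H15.K5
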