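import Pool.Agent.J4H87.K5.Stm

set_option autoImplicit false

/-! Project K5 (helper87): the job UB. -/

namespace Pool.Agent.J4H15.K5

open Finset Filter Topology Pool.Agent.J4H87.K5
open scoped Classical

/-- the number of the functions with small values -/
theorem card_small (M t m : ℕ) (ht : t ≤ M) :
    ((univ : Finset (Fin m → Fin M)).filter (fun s => ∀ i, (s i).1 < t)).card ≤ t ^ m := by
  have h1 : ((univ : Finset (Fin m → Fin M)).filter (fun s => ∀ i, (s i).1 < t)).card ≤
      (univ : Finset (Fin m → Fin t)).card := by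
    apply Finset.card_le_card_of_surjOn (fun f i => Fin.castLE ht (f i))
    intro s hs
    rw [mem_coe, mem_filter] at hs
    refine ⟨fun i => ⟨(s i).1, hs.2 i⟩, by simp, ?_⟩
    funext i
    exact Fin.ext rfl
  rw [card_univ, Fintype.card_fun, Fintype.card_fin, Fintype.card_fin] at h1
  exact h1

theorem pr_mono {n : ℕ} {P Q : Om n → Prop} (h : ∀ ω, P ω → Q ω) : pr P ≤ pr Q := by
  unfold pr
  apply div_le_div_of_nonneg_right _ (Nat.cast_nonneg _)
  exact_mod_cast card_le_card (fun ω hω => by
    rw [mem_filter] at hω ⊢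
    exact ⟨hω.1, h ω hω.2⟩)

/-- the expected number of the `y` with the property `P y` -/
theorem ex_card {n : ℕ} {α : Type} [Fintype α] (P : α → Om n → Prop) :
    ex (fun ω => (((univ : Finset α).filter (fun y => P y ω)).card : ℝ)) =
      ∑ y : α, pr (fun ω => P y ω) := by
  unfold ex pr
  rw [← sum_div]
  congr 1
  have h1 : ∀ ω : Om n, (((univ : Finset α).filter (fun y => P y ω)).card : ℝ) =
      ∑ y : α, if P y ω then (1 : ℝ) else 0 := by
    intro ω
    rw [card_filter]
    push_cast
    rfl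
  have h2 : ∀ y : α, (((univ : Finset (Om n)).filter (fun ω => P y ω)).card : ℝ) =
      ∑ ω : Om n, if P y ω then (1 : ℝ) else 0 := by
    intro y
    rw [card_filter]
    push_cast
    rfl
  rw [sum_congr rfl (fun ω _ => h1 ω), sum_congr rfl (fun y _ => h2 y), sum_comm]

theorem ex_card' {n : ℕ} {α : Type} [Fintype α] (K : Om n → Finset α) :
    ex (fun ω => ((K ω).card : ℝ)) = ∑ y : α, pr (fun ω => y ∈ K ω) := by
  rw [← ex_card (fun y ω => y ∈ K ω)]
  congr 1
  funext ω
  congr 2
  ext y
  simp

theorem ex_nonneg {n : ℕ} {f : Om n → ℝ} (h : ∀ ω, 0 ≤ f ω) : 0 ≤ ex f := by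
  unfold ex
  exact div_nonneg (sum_nonneg (fun ω _ => h ω)) (Nat.cast_nonneg _)

theorem pr_nonneg {n : ℕ} (P : Om n → Prop) : 0 ≤ pr P := by
  unfold pr
  exact div_nonneg (Nat.cast_nonneg _) (Nat.cast_nonneg _)

theorem pr_zero {n : ℕ} {P : Om n → Prop} (h : ∀ ω, ¬ P ω) : pr P = 0 := by
  unfold pr
  have : (univ.filter P) = ∅ := filter_eq_empty_iff.2 (fun ω _ => h ω)
  rw [this]
  simp

theorem t_UB : S_CL → S_UB := by
  intro hCL n t k m g H N hm ht hH hN
  have htM : t ≤ n.choose 2 := by omega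
  have hN0 : 0 ≤ N := le_trans (ex_nonneg (fun ω => Nat.cast_nonneg _)) (hN 0 (Nat.zero_le _))
  have hMt0 : (0 : ℝ) ≤ (n.choose 2 : ℝ) - t := by
    have : (t : ℝ) ≤ (n.choose 2 : ℝ) := by exact_mod_cast htM
    linarith
  have : Nonempty (Fin m) := ⟨⟨0, hm⟩⟩
  -- the event of `x`, `s`
  set P : ((Fin k → Fin n) × (Fin m → Fin (n.choose 2))) → Om n → Prop := fun y ω =>
    Function.Injective y.2 ∧ (∀ i, (y.2 i).1 < t ∧ off ω (y.2 i) = (g i).map y.1) ∧
      ∃ i₀, (∀ i, y.2 i₀ ≤ y.2 i) ∧ y.1 ∈ H (y.2 i₀).1 ω with hP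
  have e1 : ex (fun ω => (cnt t g H ω : ℝ)) = ∑ y, pr (P y) := by
    rw [← ex_card P]
    congr 1
    funext ω
    congr 1
    unfold cnt
    apply congrArg Finset.card
    ext y
    simp only [mem_filter, hP]
  -- for fixed times
  have hs : ∀ s : Fin m → Fin (n.choose 2), (∑ x : Fin k → Fin n, pr (P (x, s))) *
      ((n.choose 2 : ℝ) - t) ^ m ≤ if (∀ i, (s i).1 < t) then N else 0 := by
    intro s
    by_cases hst : ∀ i, (s i).1 < t
    · rw [if_pos hst]
      by_cases hinj : Function.Injective s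
      · obtain ⟨i₀, hi₀⟩ := Finite.exists_min s
        have hrt : (s i₀).1 ≤ t := (hst i₀).le
        rw [sum_mul]
        calc ∑ x : Fin k → Fin n, pr (P (x, s)) * ((n.choose 2 : ℝ) - t) ^ m
            ≤ ∑ x : Fin k → Fin n, pr (fun ω => x ∈ H (s i₀).1 ω) := by
              apply sum_le_sum
              intro x _
              have hcl := hCL n (s i₀).1 t m (fun ω => x ∈ H (s i₀).1 ω)
                (fun ω ω' h => by rw [hH _ ω ω' h]) htM s hinj
                (fun i => ⟨hi₀ i, hst i⟩) (fun i => (g i).map x)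
              refine le_trans (mul_le_mul_of_nonneg_right (pr_mono ?_) (pow_nonneg hMt0 m)) hcl
              rintro ω ⟨-, h2, i₁, h3, h4⟩
              have e : s i₁ = s i₀ := le_antisymm (h3 i₀) (hi₀ i₁)
              simp only at h4
              rw [e] at h4
              exact ⟨h4, fun i => (h2 i).2⟩
          _ = ex (fun ω => ((H (s i₀).1 ω).card : ℝ)) := (ex_card' _).symm
          _ ≤ N := hN _ hrt
      · have : ∀ x : Fin k → Fin n, pr (P (x, s)) = 0 := by
          intro x
          apply pr_zero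
          rintro ω ⟨h1, -⟩
          exact hinj h1
        rw [sum_congr rfl (fun x _ => this x)]
        simpa using hN0
    · rw [if_neg hst]
      have : ∀ x : Fin k → Fin n, pr (P (x, s)) = 0 := by
        intro x
        apply pr_zero
        rintro ω ⟨-, h1, -⟩
        exact hst (fun i => (h1 i).1)
      rw [sum_congr rfl (fun x _ => this x)]
      simp
  have key : ex (fun ω => (cnt t g H ω : ℝ)) * ((n.choose 2 : ℝ) - t) ^ m ≤ N * (t : ℝ) ^ m := by
    rw [e1, Fintype.sum_prod_type_right, sum_mul]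
    calc _ ≤ ∑ s : Fin m → Fin (n.choose 2), (if (∀ i, (s i).1 < t) then N else 0) :=
          sum_le_sum (fun s _ => hs s)
      _ = (((univ : Finset (Fin m → Fin (n.choose 2))).filter
            (fun s => ∀ i, (s i).1 < t)).card : ℝ) * N := by
          rw [← sum_filter, sum_const, nsmul_eq_mul]
      _ ≤ ((t ^ m : ℕ) : ℝ) * N := by
          apply mul_le_mul_of_nonneg_right _ hN0
          exact_mod_cast card_small (n.choose 2) t m htM
      _ = N * (t : ℝ) ^ m := by push_cast; ring
  rcases Nat.eq_zero_or_pos (n.choose 2) with h0 | h0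
  · -- no pairs
    have hex0 : ex (fun ω => (cnt t g H ω : ℝ)) = 0 := by
      rw [e1]
      have : IsEmpty (Fin m → Fin (n.choose 2)) := by
        rw [h0]
        exact ⟨fun f => (f ⟨0, hm⟩).elim0⟩
      apply sum_eq_zero
      intro y _
      exact (IsEmpty.false y.2).elim
    rw [hex0]
    apply mul_nonneg hN0
    apply pow_nonneg
    unfold rho
    exact div_nonneg (Nat.cast_nonneg _) hMt0
  · have hMt : (0 : ℝ) < (n.choose 2 : ℝ) - t := by
      have : (t : ℝ) < (n.choose 2 : ℝ) := by
        have : t < n.choose 2 := by omega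
        exact_mod_cast this
      linarith
    unfold rho
    rw [div_pow, mul_div_assoc', le_div_iff₀ (pow_pos hMt m)]
    exact key

end Pool.Agent.J4H15.K5
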