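import Pool.Agent.J4H15.K5.Cl
import Pool.Agent.J4H15.K5.Ub
import Pool.Agent.J4H15.K5.Red
import Pool.Agent.J4H94.K5.Ev

set_option autoImplicit false

/-! Project K5 (helper87): the job K4. -/

namespace Pool.Agent.J4H15.K5

open Finset Filter Topology Pool.Agent.J4H87.K5
open Pool.Agent.J4H94.K5 (bt_eq)
open scoped Classical

/-- union bound -/
theorem pr_exists_le {n : ℕ} {α : Type} [Fintype α] (P : α → Om n → Prop) :
    pr (fun ω => ∃ y, P y ω) ≤ ∑ y, pr (P y) := by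
  have e : ∑ y, pr (P y) = ex (fun ω => (((univ : Finset α).filter (fun y => P y ω)).card : ℝ)) :=
    (ex_card P).symm
  rw [e]
  unfold pr ex
  apply div_le_div_of_nonneg_right _ (Nat.cast_nonneg _)
  rw [card_filter]
  push_cast
  apply sum_le_sum
  intro ω _
  split_ifs with h
  · obtain ⟨y, hy⟩ := h
    have : 0 < ((univ : Finset α).filter (fun y => P y ω)).card := card_pos.2 ⟨y, by simp [hy]⟩
    exact_mod_cast this
  · exact Nat.cast_nonneg _

/-- closing lemma, with further fixed times -/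
theorem closing {n : ℕ} {r t : ℕ} (ht : t ≤ n.choose 2) : ∀ (m : ℕ) (P : Om n → Prop)
    (S : Finset (Fin (n.choose 2))) (s : Fin m → Fin (n.choose 2)) (c : Fin m → Sym2 (Fin n)),
    Function.Injective s → (∀ i, r ≤ (s i).1 ∧ (s i).1 < t ∧ s i ∉ S) → (∀ a ∈ S, a.1 < t) →
    (∀ ω ω' : Om n, (∀ j : Fin (n.choose 2), (j.1 < r ∨ j ∈ S) → ω j = ω' j) → (P ω → P ω')) →
    pr (fun ω => P ω ∧ ∀ i, off ω (s i) = c i) * ((n.choose 2 : ℝ) - t) ^ m ≤ pr P := by
  intro m
  induction m with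
  | zero =>
    intro P S s c _ _ _ _
    simp
  | succ m ih =>
    intro P S s c hs hst hS hP
    have ih' := ih P S (fun i => s i.succ) (fun i => c i.succ)
      (fun a b h => Fin.succ_injective _ (hs h)) (fun i => hst i.succ) hS hP
    have hMt : (0 : ℝ) ≤ (n.choose 2 : ℝ) - t := by
      have : (t : ℝ) ≤ (n.choose 2 : ℝ) := by exact_mod_cast ht
      linarith
    have hstep := step (r := r) ht (fun ω => P ω ∧ ∀ i : Fin m, off ω (s i.succ) = c i.succ) (s 0)
      ⟨(hst 0).1, (hst 0).2.1⟩ (S ∪ univ.image (fun i : Fin m => s i.succ)) (by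
        intro x hx
        rw [mem_union, mem_image] at hx
        rcases hx with hx | ⟨i, -, rfl⟩
        · refine ⟨fun h => ?_, hS x hx⟩
          rw [h] at hx
          exact (hst 0).2.2 hx
        · refine ⟨fun h => ?_, (hst i.succ).2.1⟩
          have := hs h
          exact Fin.succ_ne_zero i this) (by
        rintro ω ω' h ⟨h1, h2⟩
        refine ⟨hP ω ω' (fun j hj => h j ?_) h1, fun i => ?_⟩
        · rcases hj with hj | hj
          · exact Or.inl hj
          · exact Or.inr (mem_union_left _ hj)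
        · rw [← h2 i]
          unfold off
          rw [h (s i.succ) (Or.inr (mem_union_right _ (mem_image_of_mem _ (mem_univ i))))]) (c 0)
    have e : (fun ω : Om n => P ω ∧ ∀ i : Fin (m + 1), off ω (s i) = c i) =
        (fun ω => (P ω ∧ ∀ i : Fin m, off ω (s i.succ) = c i.succ) ∧ off ω (s 0) = c 0) := by
      funext ω
      rw [Fin.forall_fin_succ]
      apply propext
      tauto
    rw [e, pow_succ', ← mul_assoc]
    calc _ ≤ pr (fun ω : Om n => P ω ∧ ∀ i : Fin m, off ω (s i.succ) = c i.succ) *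
        ((n.choose 2 : ℝ) - t) ^ m := mul_le_mul_of_nonneg_right hstep (pow_nonneg hMt m)
      _ ≤ pr P := ih'

theorem mem_bt {n : ℕ} {A : List (Sym2 (Fin n)) → Prop} {ω : Om n} {i : ℕ} {j : Fin (n.choose 2)}
    (h1 : j.1 < i) (h2 : A (hist ω (j.1 + 1))) : off ω j ∈ bt A ω i :=
  mem_image_of_mem _ (mem_filter.2 ⟨mem_univ _, h1, h2⟩)

theorem bt_mono {n : ℕ} (A : List (Sym2 (Fin n)) → Prop) (ω : Om n) {r t : ℕ} (h : r ≤ t) :
    bt A ω r ⊆ bt A ω t := by
  apply image_subset_image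
  intro j hj
  rw [mem_filter] at hj ⊢
  exact ⟨hj.1, lt_of_lt_of_le hj.2.1 h, hj.2.2⟩

theorem card_bt {n t b : ℕ} {A : List (Sym2 (Fin n)) → Prop} (hb : Strat t b A) (ω : Om n) {r : ℕ}
    (h : r ≤ t) : (bt A ω r).card ≤ b := (card_le_card (bt_mono A ω h)).trans (hb ω)

theorem card_nbr {n : ℕ} (B : Finset (Sym2 (Fin n))) (v : Fin n) :
    ((univ : Finset (Fin n)).filter (fun y => s(v, y) ∈ B)).card ≤ B.card := by
  apply card_le_card_of_injOn (fun y => s(v, y))
  · intro y hy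
    rw [mem_coe, mem_filter] at hy
    exact hy.2
  · intro y _ y' _ h
    simp only at h
    rwa [Sym2.congr_right] at h

theorem card_ord {n : ℕ} (B : Finset (Sym2 (Fin n))) :
    ((univ : Finset (Fin n × Fin n)).filter (fun y => s(y.1, y.2) ∈ B)).card ≤ 2 * B.card := by
  apply Finset.card_le_mul_card_image_of_maps_to (f := fun y : Fin n × Fin n => s(y.1, y.2))
  · intro y hy
    rw [mem_filter] at hy
    exact hy.2
  · intro e _
    induction e with
    | _ a c =>
      have : (((univ : Finset (Fin n × Fin n)).filter (fun y => s(y.1, y.2) ∈ B)).filter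
          (fun y => s(y.1, y.2) = s(a, c))) ⊆ {(a, c), (c, a)} := by
        intro y hy
        rw [mem_filter] at hy
        have h := hy.2
        rw [Sym2.eq_iff] at h
        rw [mem_insert, mem_singleton]
        rcases h with ⟨h1, h2⟩ | ⟨h1, h2⟩
        · left; exact Prod.ext h1 h2
        · right; exact Prod.ext h1 h2
      exact (card_le_card this).trans (card_le_two)

theorem card_two {n : ℕ} (B : Finset (Sym2 (Fin n))) :
    ((univ : Finset (Fin 4 → Fin n)).filter (fun x => s(x 0, x 1) ∈ B ∧ s(x 2, x 3) ∈ B)).card ≤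
      (2 * B.card) ^ 2 := by
  have h1 : ((univ : Finset (Fin 4 → Fin n)).filter
      (fun x => s(x 0, x 1) ∈ B ∧ s(x 2, x 3) ∈ B)).card ≤
      (((univ : Finset (Fin n × Fin n)).filter (fun y => s(y.1, y.2) ∈ B)) ×ˢ
        ((univ : Finset (Fin n × Fin n)).filter (fun y => s(y.1, y.2) ∈ B))).card := by
    apply card_le_card_of_injOn (fun x => ((x 0, x 1), (x 2, x 3)))
    · intro x hx
      rw [mem_coe, mem_filter] at hx
      rw [mem_coe, mem_product, mem_filter, mem_filter]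
      exact ⟨⟨mem_univ _, hx.2.1⟩, ⟨mem_univ _, hx.2.2⟩⟩
    · intro x _ y _ h
      simp only [Prod.mk.injEq] at h
      funext i
      fin_cases i
      · exact h.1.1
      · exact h.1.2
      · exact h.2.1
      · exact h.2.2
  rw [card_product] at h1
  have h2 := card_ord B
  calc _ ≤ _ := h1
    _ ≤ (2 * B.card) * (2 * B.card) := Nat.mul_le_mul h2 h2
    _ = _ := by ring

theorem ex_mono {n : ℕ} {f g : Om n → ℝ} (h : ∀ ω, f ω ≤ g ω) : ex f ≤ ex g := by
  unfold ex
  exact div_le_div_of_nonneg_right (sum_le_sum (fun ω _ => h ω)) (Nat.cast_nonneg _)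

theorem ex_const_le {n : ℕ} {c : ℝ} (hc : 0 ≤ c) : ex (fun _ : Om n => c) ≤ c := by
  unfold ex
  rw [sum_const, card_univ, nsmul_eq_mul]
  rcases Nat.eq_zero_or_pos (Fintype.card (Om n)) with h | h
  · rw [h]; simpa using hc
  · have : (0 : ℝ) < (Fintype.card (Om n) : ℝ) := by exact_mod_cast h
    rw [mul_comm, mul_div_assoc, div_self this.ne', mul_one]

theorem ex_ite {n : ℕ} (P : Om n → Prop) (c : ℝ) :
    ex (fun ω => if P ω then c else 0) = c * pr P := by
  unfold ex pr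
  rw [← sum_filter, sum_const, nsmul_eq_mul]
  ring

variable {n : ℕ}

def E0 (A : List (Sym2 (Fin n)) → Prop) (s0 : Fin (n.choose 2)) (x : Fin 4 → Fin n) (ω : Om n) :
    Prop := s(x 0, x 1) ∈ bt A ω s0.1 ∧ s(x 2, x 3) ∈ bt A ω s0.1

def E1 (A : List (Sym2 (Fin n)) → Prop) (h : Sym2 (Fin 4)) (s0 sh : Fin (n.choose 2))
    (x : Fin 4 → Fin n) (ω : Om n) : Prop :=
  E0 A s0 x ω ∧ off ω s0 = s(x 0, x 2) ∧ off ω sh = h.map x

def E2 (A : List (Sym2 (Fin n)) → Prop) (h : Sym2 (Fin 4)) (z : Fin 4) (s0 sh : Fin (n.choose 2))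
    (r : ℕ) (x : Fin 4 → Fin n) (y : Fin n) (ω : Om n) : Prop :=
  E1 A h s0 sh x ω ∧ s(x z, y) ∈ bt A ω r

/-- the times are in order -/
def Cond (t : ℕ) (σ : Fin 5 → Fin (n.choose 2)) : Prop :=
  (∀ i, (σ i).1 < t) ∧ Function.Injective σ ∧ ∀ i : Fin 4, σ 0 < σ i.succ

/-- the event of the vertices `x`, `y` and the times `σ` -/
def E3 (A : List (Sym2 (Fin n)) → Prop) (t : ℕ) (h : Sym2 (Fin 4)) (z : Fin 4)
    (u : (Fin 5 → Fin (n.choose 2)) × ((Fin 4 → Fin n) × Fin n)) (ω : Om n) : Prop :=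
  Cond t u.1 ∧ E1 A h (u.1 0) (u.1 1) u.2.1 ω ∧
    (∀ i₁ : Fin 3, (∀ i : Fin 3, u.1 i₁.succ.succ ≤ u.1 i.succ.succ) →
      s(u.2.1 z, u.2.2) ∈ bt A ω (u.1 i₁.succ.succ).1) ∧
    ∀ i : Fin 3, off ω (u.1 i.succ.succ) = s(u.2.1 (z.succAbove i), u.2.2)

theorem lemB {t : ℕ} (ht : t ≤ n.choose 2) (A : List (Sym2 (Fin n)) → Prop) (h : Sym2 (Fin 4))
    (s0 sh : Fin (n.choose 2)) (h1 : s0 < sh) (h2 : sh.1 < t) (x : Fin 4 → Fin n) :
    pr (E1 A h s0 sh x) * ((n.choose 2 : ℝ) - t) ^ 2 ≤ pr (E0 A s0 x) := by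
  have hc := closing (r := s0.1) ht 2 (E0 A s0 x) ∅ ![s0, sh] ![s(x 0, x 2), h.map x] (by
    intro a b hab
    fin_cases a <;> fin_cases b <;> simp at hab ⊢
    · exact absurd hab h1.ne
    · exact absurd hab h1.ne') (by
    intro i
    fin_cases i
    · exact ⟨le_refl _, lt_trans h1 h2, by simp⟩
    · exact ⟨le_of_lt h1, h2, by simp⟩) (by simp) (by
    intro ω ω' hω hE
    unfold E0 at hE ⊢
    rwa [← bt_eq A (fun j hj => hω j (Or.inl hj))])
  refine le_trans (mul_le_mul_of_nonneg_right (pr_mono ?_) (sq_nonneg _)) hc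
  rintro ω ⟨ha, hb, hd⟩
  refine ⟨ha, fun i => ?_⟩
  fin_cases i
  · exact hb
  · exact hd

theorem lemC {t b : ℕ} (A : List (Sym2 (Fin n)) → Prop) (hb : Strat t b A)
    (s0 : Fin (n.choose 2)) (h1 : s0.1 < t) :
    ∑ x : Fin 4 → Fin n, pr (E0 A s0 x) ≤ (2 * (b : ℝ)) ^ 2 := by
  rw [← ex_card (E0 A s0)]
  refine le_trans (ex_mono (g := fun _ => (2 * (b : ℝ)) ^ 2) ?_) (ex_const_le (by positivity))
  intro ω
  have h2 := card_two (bt A ω s0.1)
  have h3 := card_bt hb ω h1.le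
  have h4 : ((univ : Finset (Fin 4 → Fin n)).filter (fun x => E0 A s0 x ω)).card ≤
      (2 * b) ^ 2 := by
    refine le_trans ?_ (h2.trans (Nat.pow_le_pow_left (by omega) 2))
    apply card_le_card
    intro x hx
    rw [mem_filter] at hx ⊢
    exact hx
  exact_mod_cast h4

theorem lemA {t b : ℕ} (ht : t ≤ n.choose 2) (A : List (Sym2 (Fin n)) → Prop) (hb : Strat t b A)
    (h : Sym2 (Fin 4)) (z : Fin 4) (σ : Fin 5 → Fin (n.choose 2)) (hσ : Cond t σ)
    (x : Fin 4 → Fin n) :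
    (∑ y : Fin n, pr (E3 A t h z (σ, (x, y)))) * ((n.choose 2 : ℝ) - t) ^ 3 ≤
      b * pr (E1 A h (σ 0) (σ 1) x) := by
  obtain ⟨hσt, hσi, hσ0⟩ := hσ
  have hMt : (0 : ℝ) ≤ (n.choose 2 : ℝ) - t := by
    have : (t : ℝ) ≤ (n.choose 2 : ℝ) := by exact_mod_cast ht
    linarith
  obtain ⟨i₁, hi₁⟩ := Finite.exists_min (fun i : Fin 3 => σ i.succ.succ)
  set r : ℕ := (σ i₁.succ.succ).1 with hr
  have h0r : (σ 0).1 < r := hσ0 i₁.succ
  have hy : ∀ y : Fin n, pr (E3 A t h z (σ, (x, y))) * ((n.choose 2 : ℝ) - t) ^ 3 ≤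
      pr (E2 A h z (σ 0) (σ 1) r x y) := by
    intro y
    have hc := closing (r := r) ht 3 (E2 A h z (σ 0) (σ 1) r x y) {σ 0, σ 1}
      (fun i => σ i.succ.succ) (fun i => s(x (z.succAbove i), y)) (by
      intro a b hab
      have := hσi hab
      simpa using this) (by
      intro i
      refine ⟨hi₁ i, hσt _, ?_⟩
      rw [mem_insert, mem_singleton, not_or]
      refine ⟨fun hh => ?_, fun hh => ?_⟩
      · have := hσi hh
        exact Fin.succ_ne_zero _ this
      · have := hσi hh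
        have h3 : i.succ.succ = Fin.succ (0 : Fin 4) := this
        exact Fin.succ_ne_zero _ (Fin.succ_injective _ h3)) (by
      intro a ha
      rw [mem_insert, mem_singleton] at ha
      rcases ha with rfl | rfl
      · exact hσt 0
      · exact hσt 1) (by
      intro ω ω' hω hE
      unfold E2 E1 E0 at hE ⊢
      have e1 : bt A ω r = bt A ω' r := bt_eq A (fun j hj => hω j (Or.inl hj))
      have e2 : bt A ω (σ 0).1 = bt A ω' (σ 0).1 :=
        bt_eq A (fun j hj => hω j (Or.inl (lt_trans hj h0r)))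
      have e3 : off ω (σ 0) = off ω' (σ 0) := by
        unfold off; rw [hω (σ 0) (Or.inl h0r)]
      have e4 : off ω (σ 1) = off ω' (σ 1) := by
        unfold off; rw [hω (σ 1) (Or.inr (by simp))]
      rwa [← e1, ← e2, ← e3, ← e4])
    refine le_trans (mul_le_mul_of_nonneg_right (pr_mono ?_) (pow_nonneg hMt 3)) hc
    rintro ω ⟨-, ha, hb', hd⟩
    exact ⟨⟨ha, hb' i₁ hi₁⟩, hd⟩
  rw [sum_mul]
  calc _ ≤ ∑ y : Fin n, pr (E2 A h z (σ 0) (σ 1) r x y) := sum_le_sum (fun y _ => hy y)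
    _ = ex (fun ω => (((univ : Finset (Fin n)).filter
          (fun y => E2 A h z (σ 0) (σ 1) r x y ω)).card : ℝ)) :=
        (ex_card (fun y => E2 A h z (σ 0) (σ 1) r x y)).symm
    _ ≤ ex (fun ω => if E1 A h (σ 0) (σ 1) x ω then (b : ℝ) else 0) := by
        apply ex_mono
        intro ω
        split_ifs with hE
        · have h5 : ((univ : Finset (Fin n)).filter
              (fun y => E2 A h z (σ 0) (σ 1) r x y ω)).card ≤ b := by
            refine le_trans (card_le_card ?_) ((card_nbr (bt A ω r) (x z)).trans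
              (card_bt hb ω (hσt i₁.succ.succ).le))
            intro y hy
            rw [mem_filter] at hy ⊢
            exact ⟨mem_univ _, hy.2.2⟩
          exact_mod_cast h5
        · have h5 : ((univ : Finset (Fin n)).filter
              (fun y => E2 A h z (σ 0) (σ 1) r x y ω)) = ∅ := by
            rw [filter_eq_empty_iff]
            intro y _ hy
            exact hE hy.1
          rw [h5]
          simp
    _ = b * pr (E1 A h (σ 0) (σ 1) x) := ex_ite _ _

theorem lemD {t b : ℕ} (ht : t ≤ n.choose 2) (A : List (Sym2 (Fin n)) → Prop) (hb : Strat t b A)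
    (h : Sym2 (Fin 4)) (z : Fin 4) :
    pr (fun ω => ∃ u, E3 A t h z u ω) * ((n.choose 2 : ℝ) - t) ^ 5 ≤
      4 * (b : ℝ) ^ 3 * (t : ℝ) ^ 5 := by
  have hMt : (0 : ℝ) ≤ (n.choose 2 : ℝ) - t := by
    have : (t : ℝ) ≤ (n.choose 2 : ℝ) := by exact_mod_cast ht
    linarith
  have hσ : ∀ σ : Fin 5 → Fin (n.choose 2),
      (∑ v : (Fin 4 → Fin n) × Fin n, pr (E3 A t h z (σ, v))) * ((n.choose 2 : ℝ) - t) ^ 5 ≤
        if (∀ i, (σ i).1 < t) then 4 * (b : ℝ) ^ 3 else 0 := by
    intro σ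
    by_cases hC : Cond t σ
    · rw [if_pos hC.1, Fintype.sum_prod_type]
      have e5 : ((n.choose 2 : ℝ) - t) ^ 5 =
          ((n.choose 2 : ℝ) - t) ^ 3 * ((n.choose 2 : ℝ) - t) ^ 2 := by ring
      rw [e5, ← mul_assoc, sum_mul]
      have h1 : ∑ x : Fin 4 → Fin n, (∑ y : Fin n, pr (E3 A t h z (σ, (x, y)))) *
          ((n.choose 2 : ℝ) - t) ^ 3 ≤ ∑ x : Fin 4 → Fin n, b * pr (E1 A h (σ 0) (σ 1) x) :=
        sum_le_sum (fun x _ => lemA ht A hb h z σ hC x)
      calc _ ≤ (∑ x : Fin 4 → Fin n, b * pr (E1 A h (σ 0) (σ 1) x)) *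
            ((n.choose 2 : ℝ) - t) ^ 2 := mul_le_mul_of_nonneg_right h1 (sq_nonneg _)
        _ = b * ∑ x : Fin 4 → Fin n, (pr (E1 A h (σ 0) (σ 1) x) *
            ((n.choose 2 : ℝ) - t) ^ 2) := by
            rw [← mul_sum, ← sum_mul, mul_assoc]
        _ ≤ b * ∑ x : Fin 4 → Fin n, pr (E0 A (σ 0) x) := by
            apply mul_le_mul_of_nonneg_left _ (Nat.cast_nonneg _)
            apply sum_le_sum
            intro x _
            exact lemB ht A h (σ 0) (σ 1) (hC.2.2 0) (hC.1 1) x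
        _ ≤ b * (2 * (b : ℝ)) ^ 2 :=
            mul_le_mul_of_nonneg_left (lemC A hb (σ 0) (hC.1 0)) (Nat.cast_nonneg _)
        _ = 4 * (b : ℝ) ^ 3 := by ring
    · have : ∀ v : (Fin 4 → Fin n) × Fin n, pr (E3 A t h z (σ, v)) = 0 := by
        intro v
        apply pr_zero
        rintro ω ⟨h1, -⟩
        exact hC h1
      rw [sum_congr rfl (fun v _ => this v), sum_const_zero, zero_mul]
      split_ifs
      · positivity
      · exact le_refl _
  calc _ ≤ (∑ u, pr (E3 A t h z u)) * ((n.choose 2 : ℝ) - t) ^ 5 :=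
        mul_le_mul_of_nonneg_right (pr_exists_le _) (pow_nonneg hMt 5)
    _ = ∑ σ : Fin 5 → Fin (n.choose 2), (∑ v : (Fin 4 → Fin n) × Fin n,
          pr (E3 A t h z (σ, v))) * ((n.choose 2 : ℝ) - t) ^ 5 := by
        rw [Fintype.sum_prod_type, sum_mul]
    _ ≤ ∑ σ : Fin 5 → Fin (n.choose 2), (if (∀ i, (σ i).1 < t) then 4 * (b : ℝ) ^ 3 else 0) :=
        sum_le_sum (fun σ _ => hσ σ)
    _ = (((univ : Finset (Fin 5 → Fin (n.choose 2))).filter
          (fun s => ∀ i, (s i).1 < t)).card : ℝ) * (4 * (b : ℝ) ^ 3) := by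
        rw [← sum_filter, sum_const, nsmul_eq_mul]
    _ ≤ ((t ^ 5 : ℕ) : ℝ) * (4 * (b : ℝ) ^ 3) := by
        apply mul_le_mul_of_nonneg_right _ (by positivity)
        exact_mod_cast card_small (n.choose 2) t 5 ht
    _ = _ := by push_cast; ring

/-- the three pairs `h` -/
def hh : Fin 3 → Sym2 (Fin 4) := ![s(0, 3), s(1, 2), s(1, 3)]

theorem toE3 {t : ℕ} (A : List (Sym2 (Fin n)) → Prop) (ω : Om n) (x : Fin 5 → Fin n)
    (τ : Sym2 (Fin 5) → Fin (n.choose 2)) (hE : Emb A ω t x τ) (a : Fin 3) (z : Fin 4)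
    (h1 : τ s(0, 1) < τ s(0, 2)) (h2 : τ s(2, 3) < τ s(0, 2))
    (h3 : τ s(0, 2) < τ ((hh a).map Fin.castSucc)) (h4 : τ s(0, 2) < τ s(z.castSucc, 4))
    (h5 : ∀ w : Fin 5, w ≠ 4 → w ≠ z.castSucc → τ s(z.castSucc, 4) < τ s(w, 4)) :
    ∃ u, E3 A t (hh a) z u ω := by
  have hinj := (t_RED.2 n t A ω x τ hE).1
  obtain ⟨hx, hE⟩ := hE
  set σ : Fin 5 → Fin (n.choose 2) := Fin.cons (τ s(0, 2)) (Fin.cons (τ ((hh a).map Fin.castSucc))
    (fun i : Fin 3 => τ s((z.succAbove i).castSucc, 4))) with hσ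
  have s0 : σ 0 = τ s(0, 2) := rfl
  have s1 : σ 1 = τ ((hh a).map Fin.castSucc) := rfl
  have s2 : ∀ i : Fin 3, σ i.succ.succ = τ s((z.succAbove i).castSucc, 4) := by
    intro i
    rw [hσ, Fin.cons_succ, Fin.cons_succ]
  have d02 : ¬ (s(0, 2) : Sym2 (Fin 5)).IsDiag := by decide
  have dh : ∀ a : Fin 3, ¬ ((hh a).map (Fin.castSucc : Fin 4 → Fin 5)).IsDiag := by
    intro a
    fin_cases a <;> simp [hh]
  have d4 : ∀ w : Fin 4, ¬ (s(w.castSucc, 4) : Sym2 (Fin 5)).IsDiag := by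
    intro w
    rw [Sym2.mk_isDiag_iff]
    exact (Fin.castSucc_lt_last w).ne
  have hw : ∀ i : Fin 3, τ s(z.castSucc, 4) < τ s((z.succAbove i).castSucc, 4) := by
    intro i
    apply h5
    · exact (Fin.castSucc_lt_last _).ne
    · intro hh'
      exact Fin.succAbove_ne z i (Fin.castSucc_injective _ hh')
  refine ⟨(σ, (fun i => x i.castSucc, x 4)), ⟨?_, ?_, ?_⟩, ⟨⟨?_, ?_⟩, ?_, ?_⟩, ?_, ?_⟩
  · intro i
    induction i using Fin.cases with
    | zero => exact (hE _ d02).1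
    | succ i =>
      induction i using Fin.cases with
      | zero => exact (hE _ (dh a)).1
      | succ i =>
        rw [show (σ, ((fun i => x i.castSucc, x 4) : (Fin 4 → Fin n) × Fin n)).1 = σ from rfl, s2 i]
        exact (hE _ (d4 _)).1
  · -- injectivity
    have hne : ∀ i : Fin 3, τ ((hh a).map Fin.castSucc) ≠ τ s((z.succAbove i).castSucc, 4) := by
      intro i h6
      have h7 := hinj _ _ (dh a) (d4 _) h6
      have h8 : (4 : Fin 5) ∈ (hh a).map (Fin.castSucc : Fin 4 → Fin 5) := by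
        rw [h7]; exact Sym2.mem_mk_right _ _
      rw [Sym2.mem_map] at h8
      obtain ⟨q, -, hq⟩ := h8
      exact (Fin.castSucc_lt_last q).ne hq
    have hne0 : ∀ i : Fin 4, σ 0 < σ i.succ := by
      intro i
      induction i using Fin.cases with
      | zero => exact h3
      | succ i => rw [s2 i, s0]; exact h4.trans (hw i)
    have hww : ∀ i j : Fin 3, τ s((z.succAbove i).castSucc, 4) = τ s((z.succAbove j).castSucc, 4) →
        i = j := by
      intro i j hij
      have h7 := hinj _ _ (d4 _) (d4 _) hij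
      rw [Sym2.congr_left] at h7
      exact Fin.succAbove_right_injective (Fin.castSucc_injective _ h7)
    show Function.Injective σ
    intro i j hij
    induction i using Fin.cases with
    | zero =>
      induction j using Fin.cases with
      | zero => rfl
      | succ j => exact absurd hij (hne0 j).ne
    | succ i =>
      induction j using Fin.cases with
      | zero => exact absurd hij (hne0 i).ne'
      | succ j =>
        induction i using Fin.cases with
        | zero =>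
          induction j using Fin.cases with
          | zero => rfl
          | succ j =>
            rw [s2 j] at hij
            exact absurd hij (hne j)
        | succ i =>
          induction j using Fin.cases with
          | zero =>
            rw [s2 i] at hij
            exact absurd hij.symm (hne i)
          | succ j =>
            rw [s2 i, s2 j] at hij
            rw [hww i j hij]
  · intro i
    show σ 0 < σ i.succ
    induction i using Fin.cases with
    | zero => exact h3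
    | succ i => rw [s2 i, s0]; exact h4.trans (hw i)
  · have := (hE s(0, 1) (by decide))
    show s(x 0, x 1) ∈ bt A ω (σ 0).1
    have h9 : off ω (τ s(0, 1)) = s(x 0, x 1) := by rw [this.2.1, Sym2.map_mk]
    rw [← h9]
    exact mem_bt h1 this.2.2
  · have := (hE s(2, 3) (by decide))
    show s(x 2, x 3) ∈ bt A ω (σ 0).1
    have h9 : off ω (τ s(2, 3)) = s(x 2, x 3) := by rw [this.2.1, Sym2.map_mk]
    rw [← h9]
    exact mem_bt h2 this.2.2
  · show off ω (σ 0) = s(x 0, x 2)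
    rw [s0, (hE _ d02).2.1, Sym2.map_mk]
  · show off ω (σ 1) = (hh a).map (fun i => x i.castSucc)
    rw [s1, (hE _ (dh a)).2.1, Sym2.map_map]
    rfl
  · intro i₁ _
    show s(x z.castSucc, x 4) ∈ bt A ω (σ i₁.succ.succ).1
    have h9 : off ω (τ s(z.castSucc, 4)) = s(x z.castSucc, x 4) := by
      rw [(hE _ (d4 z)).2.1, Sym2.map_mk]
    rw [← h9, s2 i₁]
    exact mem_bt (hw i₁) (hE _ (d4 z)).2.2
  · intro i
    show off ω (σ i.succ.succ) = s(x (z.succAbove i).castSucc, x 4)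
    rw [s2 i, (hE _ (d4 _)).2.1, Sym2.map_mk]

theorem t_K4 : S_CL → S_K4 := by
  intro _ n t b A h2t hb
  have ht : t ≤ n.choose 2 := by omega
  have hMt0 : (0 : ℝ) ≤ (n.choose 2 : ℝ) - t := by
    have : (t : ℝ) ≤ (n.choose 2 : ℝ) := by exact_mod_cast ht
    linarith
  have key : pr (fun ω : Om n => ∃ v : Fin 3 × Fin 4, ∃ u, E3 A t (hh v.1) v.2 u ω) *
      ((n.choose 2 : ℝ) - t) ^ 5 ≤ 48 * (b : ℝ) ^ 3 * (t : ℝ) ^ 5 := by
    calc _ ≤ (∑ v : Fin 3 × Fin 4, pr (fun ω : Om n => ∃ u, E3 A t (hh v.1) v.2 u ω)) *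
          ((n.choose 2 : ℝ) - t) ^ 5 :=
          mul_le_mul_of_nonneg_right
            (pr_exists_le (fun v : Fin 3 × Fin 4 => fun ω : Om n => ∃ u, E3 A t (hh v.1) v.2 u ω))
            (pow_nonneg hMt0 5)
      _ = ∑ v : Fin 3 × Fin 4, pr (fun ω : Om n => ∃ u, E3 A t (hh v.1) v.2 u ω) *
          ((n.choose 2 : ℝ) - t) ^ 5 := sum_mul _ _ _
      _ ≤ ∑ _v : Fin 3 × Fin 4, 4 * (b : ℝ) ^ 3 * (t : ℝ) ^ 5 :=
          sum_le_sum (fun v _ => lemD ht A hb (hh v.1) v.2)
      _ = _ := by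
          rw [sum_const, card_univ, Fintype.card_prod, Fintype.card_fin, Fintype.card_fin,
            nsmul_eq_mul]
          push_cast
          ring
  have hle : pr (fun ω => ∃ x τ, Emb A ω t x τ ∧
      ∃ h ∈ ({s(0, 3), s(1, 2), s(1, 3)} : Finset (Sym2 (Fin 5))), ∃ z : Fin 5,
      z ≠ 4 ∧ τ s(0, 1) < τ s(0, 2) ∧ τ s(2, 3) < τ s(0, 2) ∧ τ s(0, 2) < τ h ∧
      τ s(0, 2) < τ s(z, 4) ∧ ∀ w : Fin 5, w ≠ 4 → w ≠ z → τ s(z, 4) < τ s(w, 4)) ≤
      pr (fun ω : Om n => ∃ v : Fin 3 × Fin 4, ∃ u, E3 A t (hh v.1) v.2 u ω) := by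
    apply pr_mono
    rintro ω ⟨x, τ, hE, h, hh1, z, hz, h1, h2, h3, h4, h5⟩
    obtain ⟨a, ha⟩ : ∃ a : Fin 3, h = (hh a).map (Fin.castSucc : Fin 4 → Fin 5) := by
      simp only [mem_insert, mem_singleton] at hh1
      rcases hh1 with rfl | rfl | rfl
      · exact ⟨0, rfl⟩
      · exact ⟨1, rfl⟩
      · exact ⟨2, rfl⟩
    obtain ⟨z', rfl⟩ : ∃ z' : Fin 4, z = z'.castSucc := by
      refine ⟨⟨z.1, ?_⟩, rfl⟩
      have h6 : z.1 ≠ 4 := fun h => hz (Fin.ext h)
      have := z.2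
      omega
    subst ha
    exact ⟨(a, z'), toE3 A ω x τ hE a z' h1 h2 h3 h4 h5⟩
  rcases Nat.eq_zero_or_pos (n.choose 2) with h0 | h0
  · have : pr (fun ω : Om n => ∃ v : Fin 3 × Fin 4, ∃ u, E3 A t (hh v.1) v.2 u ω) = 0 := by
      apply pr_zero
      rintro ω ⟨v, u, -⟩
      exact (h0 ▸ (u.1 0)).elim0
    rw [this] at hle
    refine hle.trans ?_
    apply mul_nonneg (by positivity)
    apply pow_nonneg
    unfold rho
    exact div_nonneg (Nat.cast_nonneg _) hMt0
  · have hMt : (0 : ℝ) < (n.choose 2 : ℝ) - t := by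
      have : (t : ℝ) < (n.choose 2 : ℝ) := by
        have : t < n.choose 2 := by omega
        exact_mod_cast this
      linarith
    refine hle.trans ?_
    unfold rho
    rw [div_pow, mul_div_assoc', le_div_iff₀ (pow_pos hMt 5)]
    refine key.trans ?_
    have h7 : (0 : ℝ) ≤ (b : ℝ) ^ 3 * (t : ℝ) ^ 5 := by positivity
    nlinarith

end Pool.Agent.J4H15.K5
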